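import Mathlib
import Pool.Agent.R980.BudgetMain

/-!
# Builder can save linearly many edges of the `k`-nearest neighbour graph

The notions `Edge`, `Ordering`, `deg`, `MinDeg`, `shown` (the graph `G_t`), `tau` (the hitting time
`τ_k`), `Strategy`, `bought` (Builder's graph `B_t`), `nearest` (the `k`-nearest neighbour graph)
and `prob` are defined in `Pool/Agent/R980/Budget.lean`; `IsConst k o` (`o` is the constant `o_k`)
is defined in `Pool/Agent/R980/BudgetMain.lean`.
-/

set_option autoImplicit false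

namespace Pool.Agent.Results.MP_59e60d_pr.BudgetBelowNearest

open Finset Filter Topology
open Pool.Agent.R980.Budget

/-- The conjecture fails for every `k ≥ 1`: for every `δ > 0` there are `ε > 0`, budgets
`b n ≤ (o_k - ε) n` and `(τ_k, b)`-strategies which succeed with probability at least `1 - δ`. -/
theorem result (k : ℕ) (hk : 0 < k) :
    (∀ o : ℝ, IsConst k o → ∀ δ : ℝ, 0 < δ →
      ∃ ε : ℝ, 0 < ε ∧ ∃ b : ℕ → ℕ, ∃ S : (n : ℕ) → Strategy n,
        (∀ n, (b n : ℝ) ≤ (o - ε) * n) ∧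
        (∀ n (σ : Ordering n) (t : ℕ), (bought (S n) σ t).card ≤ b n) ∧
        ∀ᶠ n : ℕ in atTop, 1 - δ ≤ prob n fun σ => MinDeg k (bought (S n) σ (tau k σ))) ∧
    (∀ δ : ℝ, 0 < δ → ∃ ε : ℝ, 0 < ε ∧ ∃ S : (n : ℕ) → Strategy n,
      ∀ᶠ n : ℕ in atTop, 1 - δ ≤ prob n fun σ =>
        ((bought (S n) σ (n.choose 2)).card : ℝ) + ε * n ≤ (nearest k σ).card ∧
        MinDeg k (bought (S n) σ (tau k σ))) := by
  refine ⟨fun o ho δ hδ => main k hk o ho δ hδ, fun δ hδ => ?_⟩
  obtain ⟨s, c, hc, h⟩ := good_event k hk δ hδ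
  exact ⟨c, hc, fun n => rule k (n / s), h⟩

end Pool.Agent.Results.MP_59e60d_pr.BudgetBelowNearest
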